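import Pool.Agent.Helper12.XG.St2

/-! # Module NU1 (numerical) -/

set_option autoImplicit false

namespace Pool.Agent.Helper28.XG

open Finset Polynomial Pool.Agent.Helper12.XG Pool.Agent.Helper14.GS

private theorem oneMul {a b : ℝ} (ha : 1 ≤ a) (hb : 1 ≤ b) : 1 ≤ a * b := by
  nlinarith

private theorem final_ineq (Λ q z T : ℝ) (hΛ : 1200 ≤ Λ) (hq : 2 ≤ q) (hz : 100 * z ≤ Λ)
    (hT : Λ ^ 2 * (q - 1) / 8 ≤ T) :
    47 * q * z + 12 * q * (Λ + 1) + (Λ + 1) - T < 0 := by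
  have h1 : 47 * q * z ≤ 47 * q * (Λ / 100) := by
    have : z ≤ Λ / 100 := by linarith
    have h47 : (0 : ℝ) ≤ 47 * q := by linarith
    exact mul_le_mul_of_nonneg_left this h47
  have h2 : 75 * (Λ * q) ≤ Λ ^ 2 * (q - 1) / 8 := by
    have h3 : q / 2 ≤ q - 1 := by linarith
    have h4 : 1200 * Λ ≤ Λ ^ 2 := by nlinarith
    have h5 : 1200 * Λ * (q / 2) ≤ Λ ^ 2 * (q - 1) := by
      apply mul_le_mul h4 h3 (by linarith) (by positivity)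
    linarith
  have h6 : (q : ℝ) ≤ Λ * q := by nlinarith
  have h7 : Λ ≤ Λ * q := by nlinarith
  nlinarith

private theorem log_of_big (C Λ E : ℕ) (hC : 1 ≤ C) (hΛ : 1 ≤ Λ)
    (h : ((64 : ℝ) * C * Λ * ((E : ℝ) ^ 2 + 1)) ^ 100 ≤ Real.exp Λ) :
    100 * Real.log ((64 : ℝ) * C * Λ * ((E : ℝ) ^ 2 + 1)) ≤ Λ := by
  have hC' : (0 : ℝ) < (C : ℝ) := by exact_mod_cast hC
  have hΛ' : (0 : ℝ) < (Λ : ℝ) := by exact_mod_cast hΛ
  have hpos : (0 : ℝ) < (64 : ℝ) * C * Λ * ((E : ℝ) ^ 2 + 1) := by positivity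
  have h1 := Real.log_le_log (pow_pos hpos 100) h
  rw [Real.log_pow, Real.log_exp] at h1
  exact_mod_cast h1

set_option maxHeartbeats 1000000 in
theorem hNU1 : StNU1 := by
  intro r C y Λ E G q d t hP hq hd hdC ht hlog
  obtain ⟨hΛ, hE, hC, hlo, hup, -, -, hbig, -⟩ := hP
  have hz100' : 100 * Real.log ((64 : ℝ) * C * Λ * ((E : ℝ) ^ 2 + 1)) ≤ Λ :=
    log_of_big C Λ E (by omega) (by omega) hbig
  clear hbig
  have hΛr : (1200 : ℝ) ≤ (Λ : ℝ) := by exact_mod_cast hΛ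
  have hCr : (1 : ℝ) ≤ (C : ℝ) := by exact_mod_cast hC
  have hqr : (2 : ℝ) ≤ (q : ℝ) := by exact_mod_cast hq
  have hdr : (1 : ℝ) ≤ (d : ℝ) := by exact_mod_cast hd
  have hE1 : 1 ≤ E := by
    rw [hE]; exact Nat.one_le_pow _ _ (by omega)
  have hEr : (1 : ℝ) ≤ (E : ℝ) := by exact_mod_cast hE1
  have hy1 : (1 : ℝ) ≤ (y : ℝ) := by
    have h1 : (1 : ℝ) ≤ Real.exp Λ := Real.one_le_exp (by linarith)
    linarith
  set S : ℝ := (E : ℝ) ^ 2 + 1 with hS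
  have hS1 : (1 : ℝ) ≤ S := by
    have h0 := sq_nonneg (E : ℝ)
    rw [hS]; linarith
  have hES : (E : ℝ) ≤ S := by
    have h0 := sq_nonneg ((E : ℝ) - 1)
    have h1 : ((E : ℝ) - 1) ^ 2 = (E : ℝ) ^ 2 - 2 * E + 1 := by ring
    rw [hS]; linarith
  set Z : ℝ := 64 * (C : ℝ) * Λ * S with hZ
  have hCΛ : (1 : ℝ) ≤ (C : ℝ) * Λ := oneMul hCr (by linarith)
  have hSZ : 64 * S ≤ Z := by
    have : 64 * S * 1 ≤ 64 * S * ((C : ℝ) * Λ) :=
      mul_le_mul_of_nonneg_left hCΛ (by positivity)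
    calc 64 * S = 64 * S * 1 := by ring
      _ ≤ _ := this
      _ = Z := by rw [hZ]; ring
  have hZ64 : (64 : ℝ) ≤ Z := by linarith
  have hZ1 : (1 : ℝ) ≤ Z := by linarith
  have hZ0 : (0 : ℝ) < Z := by linarith
  have hCZ : (C : ℝ) ≤ Z := by
    have h1 : (1 : ℝ) ≤ 64 * (Λ * S) := oneMul (by norm_num) (oneMul (by linarith) hS1)
    calc (C : ℝ) = C * 1 := by ring
      _ ≤ C * (64 * (Λ * S)) := mul_le_mul_of_nonneg_left h1 (by positivity)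
      _ = Z := by rw [hZ]; ring
  have hΛSZ : (Λ : ℝ) * S ≤ Z / 64 := by
    have h1 : (Λ : ℝ) * S * 1 ≤ Λ * S * C :=
      mul_le_mul_of_nonneg_left hCr (by positivity)
    rw [hZ]; linarith
  have hEΛ : (E : ℝ) * Λ ≤ Z / 64 := by
    have h1 : (E : ℝ) * Λ ≤ S * Λ := mul_le_mul_of_nonneg_right hES (by positivity)
    linarith
  have hZq : Z ≤ Z ^ q := by
    calc Z = Z ^ 1 := (pow_one Z).symm
      _ ≤ Z ^ q := pow_le_pow_right₀ hZ1 (by omega)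
  -- basic bounds
  have hB1 : (1 : ℝ) ≤ BdR E q := by
    unfold BdR
    apply one_le_pow₀
    have : (1 : ℝ) ≤ ((E : ℝ) ^ 2 + 1) ^ 3 := one_le_pow₀ hS1
    linarith
  have hB : BdR E q ≤ Z ^ (3 * q) := by
    unfold BdR
    rw [pow_mul]
    apply pow_le_pow_left₀ (by positivity)
    have h1 : S ≤ Z / 64 := by linarith
    have h2 : S ^ 3 ≤ (Z / 64) ^ 3 := pow_le_pow_left₀ (by linarith) h1 3
    have h3 : (0 : ℝ) ≤ Z ^ 3 := by positivity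
    calc 2 * ((E : ℝ) ^ 2 + 1) ^ 3 = 2 * S ^ 3 := by rw [hS]
      _ ≤ 2 * (Z / 64) ^ 3 := by linarith
      _ = Z ^ 3 * (2 / 64 ^ 3) := by ring
      _ ≤ Z ^ 3 := mul_le_of_le_one_right h3 (by norm_num)
  have h2q : (2 : ℝ) ^ q ≤ Z ^ q := pow_le_pow_left₀ (by norm_num) (by linarith) q
  have hq2 : (q : ℝ) + 1 ≤ 2 ^ q := by
    exact_mod_cast (Nat.lt_two_pow_self (n := q))
  have hqZ : (q : ℝ) ≤ Z ^ q := by linarith
  have hq1Z : (q : ℝ) + 1 ≤ Z ^ q := by linarith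
  have h4q : (2 : ℝ) ^ (2 * q) ≤ Z ^ q := by
    rw [pow_mul]; exact pow_le_pow_left₀ (by norm_num) (by linarith) q
  set X : ℝ := Real.exp (Λ + 1) with hX
  have hX0 : (0 : ℝ) < X := Real.exp_pos _
  have hyq : (y : ℝ) ^ (4 * q) ≤ X ^ (4 * q) := pow_le_pow_left₀ (by positivity) hup _
  have hyq1 : (1 : ℝ) ≤ (y : ℝ) ^ (4 * q) := one_le_pow₀ hy1
  have hWa1 : (1 : ℝ) ≤ WaR E q y := by
    unfold WaR
    have h2 : (1 : ℝ) ≤ (2 : ℝ) ^ (2 * q) := one_le_pow₀ (by norm_num)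
    exact oneMul (oneMul (oneMul (by linarith) hB1) h2) hyq1
  have hWa : WaR E q y ≤ Z ^ (5 * q) * X ^ (4 * q) := by
    unfold WaR
    calc (q : ℝ) * BdR E q * 2 ^ (2 * q) * (y : ℝ) ^ (4 * q)
        ≤ Z ^ q * Z ^ (3 * q) * Z ^ q * X ^ (4 * q) := by gcongr
      _ = Z ^ (5 * q) * X ^ (4 * q) := by ring
  have h2S : 2 * S ≤ Z ^ q := by linarith
  have hdZ : (d : ℝ) ≤ Z ^ (4 * q) := by
    calc (d : ℝ) ≤ (C : ℝ) ^ (4 * q) := by exact_mod_cast hdC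
      _ ≤ Z ^ (4 * q) := pow_le_pow_left₀ (by positivity) hCZ _
  have hW1 : (1 : ℝ) ≤ WR E q y d := by
    unfold WR
    have h1 : (1 : ℝ) ≤ 2 * (d : ℝ) := by linarith
    exact oneMul (oneMul h1 hS1) hWa1
  have hW : WR E q y d ≤ Z ^ (10 * q) * X ^ (4 * q) := by
    have h0 : WR E q y d = (d : ℝ) * (2 * S) * WaR E q y := by unfold WR; rw [hS]; ring
    rw [h0]
    calc (d : ℝ) * (2 * S) * WaR E q y
        ≤ Z ^ (4 * q) * Z ^ q * (Z ^ (5 * q) * X ^ (4 * q)) := by gcongr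
      _ = Z ^ (10 * q) * X ^ (4 * q) := by ring
  have hA : AmR (E * Λ) q ≤ Z ^ (10 * q) := by
    unfold AmR
    push_cast
    have h1 : (E : ℝ) * Λ + 1 ≤ Z ^ q := by linarith
    have h2 : 16 * ((E : ℝ) * Λ) ^ 4 ≤ Z ^ 4 := by
      have h3 : ((E : ℝ) * Λ) ^ 4 ≤ (Z / 64) ^ 4 := pow_le_pow_left₀ (by positivity) hEΛ 4
      have h4 : (0 : ℝ) ≤ Z ^ 4 := by positivity
      calc 16 * ((E : ℝ) * Λ) ^ 4 ≤ 16 * (Z / 64) ^ 4 := by linarith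
        _ = Z ^ 4 * (16 / 64 ^ 4) := by ring
        _ ≤ Z ^ 4 := mul_le_of_le_one_right h4 (by norm_num)
    have h5 : (16 * ((E : ℝ) * Λ) ^ 4) ^ (q + 1) ≤ Z ^ (8 * q) := by
      calc (16 * ((E : ℝ) * Λ) ^ 4) ^ (q + 1) ≤ (Z ^ 4) ^ (q + 1) :=
            pow_le_pow_left₀ (by positivity) h2 _
        _ = Z ^ (4 * (q + 1)) := (pow_mul Z 4 (q + 1)).symm
        _ ≤ Z ^ (8 * q) := pow_le_pow_right₀ hZ1 (by omega)
    calc ((E : ℝ) * Λ + 1) * (q + 1) * (16 * ((E : ℝ) * Λ) ^ 4) ^ (q + 1)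
        ≤ Z ^ q * Z ^ q * Z ^ (8 * q) := by gcongr
      _ = Z ^ (10 * q) := by ring
  have hA0 : (0 : ℝ) ≤ AmR (E * Λ) q := by unfold AmR; positivity
  set κ : ℝ := 1 / (Λ : ℝ) ^ r with hκ
  set τ : ℝ := t ^ (-κ) with hτ
  have ht0 : (0 : ℝ) < t := by linarith
  have hτ0 : (0 : ℝ) < τ := Real.rpow_pos_of_pos ht0 _
  have hEp : EpR E q y t κ ≤ Z ^ (6 * q) * X ^ (4 * q) * (X * τ) := by
    have h0 : EpR E q y t κ = (2 * S) * WaR E q y * ((y : ℝ) * τ) := by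
      unfold EpR; rw [hS]
    rw [h0]
    calc (2 * S) * WaR E q y * ((y : ℝ) * τ)
        ≤ Z ^ q * (Z ^ (5 * q) * X ^ (4 * q)) * (X * τ) := by gcongr
      _ = Z ^ (6 * q) * X ^ (4 * q) * (X * τ) := by ring
  have hEp0 : (0 : ℝ) ≤ EpR E q y t κ := by
    have h0 : EpR E q y t κ = (2 * S) * WaR E q y * ((y : ℝ) * τ) := by
      unfold EpR; rw [hS]
    rw [h0]; positivity
  refine ⟨hW1, ?_⟩
  have h16 : (16 : ℝ) ≤ Z ^ q := by linarith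
  have hprod : 16 * WR E q y d ^ 2 * AmR (E * Λ) q ^ 2 * EpR E q y t κ
      ≤ Z ^ (47 * q) * X ^ (12 * q) * X * τ := by
    calc 16 * WR E q y d ^ 2 * AmR (E * Λ) q ^ 2 * EpR E q y t κ
        ≤ Z ^ q * (Z ^ (10 * q) * X ^ (4 * q)) ^ 2 * (Z ^ (10 * q)) ^ 2 *
            (Z ^ (6 * q) * X ^ (4 * q) * (X * τ)) := by
          have hW0 : (0 : ℝ) ≤ WR E q y d := by linarith
          gcongr
      _ = Z ^ (47 * q) * X ^ (12 * q) * X * τ := by ring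
  refine lt_of_le_of_lt hprod ?_
  set z : ℝ := Real.log Z with hz
  have hz100 : 100 * z ≤ Λ := hz100'
  have hZexp : Z ^ (47 * q) = Real.exp (47 * q * z) := by
    rw [← Real.exp_log (show (0 : ℝ) < Z ^ (47 * q) by positivity), Real.log_pow]
    push_cast
    rfl
  have hXexp : X ^ (12 * q) = Real.exp (12 * q * (Λ + 1)) := by
    rw [hX, ← Real.exp_nat_mul]; push_cast; rfl
  have hτexp : τ = Real.exp (-(κ * Real.log t)) := by
    rw [hτ, Real.rpow_def_of_pos ht0]; congr 1; ring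
  rw [hZexp, hXexp, hτexp, hX, ← Real.exp_add, ← Real.exp_add, ← Real.exp_add]
  rw [Real.exp_lt_one_iff]
  have hκE : κ * E = Λ := by
    have hne : (Λ : ℝ) ^ r ≠ 0 := pow_ne_zero _ (by linarith)
    have hEc : (E : ℝ) = (Λ : ℝ) ^ r * Λ := by rw [hE]; push_cast; exact pow_succ _ _
    rw [hκ, hEc, ← mul_assoc, one_div, inv_mul_cancel₀ hne, one_mul]
  have hκ0 : 0 ≤ κ := by rw [hκ]; positivity
  have hT : (Λ : ℝ) ^ 2 * (q - 1) / 8 ≤ κ * Real.log t := by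
    have h1 := mul_le_mul_of_nonneg_left hlog hκ0
    have h2 : κ * ((E : ℝ) * Λ * ((q : ℝ) - 1) / 8) = (Λ : ℝ) ^ 2 * (q - 1) / 8 := by
      calc κ * ((E : ℝ) * Λ * ((q : ℝ) - 1) / 8) = (κ * E) * Λ * ((q : ℝ) - 1) / 8 := by ring
        _ = _ := by rw [hκE]; ring
    linarith
  have := final_ineq Λ q z (κ * Real.log t) hΛr hqr hz100 hT
  linarith

end Pool.Agent.Helper28.XG
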